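/-
Problem MP_d91817_gt: a continuous map from [0, 1] to the plane with at most two preimages of every
point which is not finitely linear.
-/
import Mathlib

set_option autoImplicit false

namespace Pool.Agent.Results.MP_d91817_gt.PlanarTwoToOne

/-! ## The definitions of the problem file -/

/-- The closed intervals `I_i = [lo i, hi i]`, `i = 1, ..., k`, are a decomposition of `I`:
`I = I_1 ∪ ... ∪ I_k`, where the `I_i` are closed intervals with pairwise disjoint interiors.
(Intervals consisting of one point are allowed; this makes the theorem below stronger, and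
removing them from a decomposition of an interval of positive length leaves a decomposition.) -/
def IsDecomposition (I : Set ℝ) {k : ℕ} (lo hi : Fin k → ℝ) : Prop :=
  (∀ i, lo i ≤ hi i) ∧ (I = ⋃ i, Set.Icc (lo i) (hi i)) ∧
    ∀ i j, i ≠ j →
      Disjoint (interior (Set.Icc (lo i) (hi i))) (interior (Set.Icc (lo j) (hi j)))

/-- The image `f(A)` of a set `A ⊆ I` under a function `f` defined on `I`. -/
def imageOn {I : Set ℝ} {Y : Type*} (f : I → Y) (A : Set ℝ) : Set Y :=
  {y | ∃ x : I, (x : ℝ) ∈ A ∧ f x = y}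

/-- A function `f : I → Y` is finitely linear: there is a positive integer `m`, independent of
`ε`, such that for every `ε > 0` there is a decomposition of `I` into finitely many closed
intervals of length less than `ε` such that for every `i` the number of the `j` with
`f(I_i) ∩ f(I_j) ≠ ∅` is at most `m`. -/
def FinitelyLinear {I : Set ℝ} {Y : Type*} (f : I → Y) : Prop :=
  ∃ m : ℕ, 0 < m ∧ ∀ ε : ℝ, 0 < ε →
    ∃ (k : ℕ) (lo hi : Fin k → ℝ), IsDecomposition I lo hi ∧ (∀ i, hi i - lo i < ε) ∧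
      ∀ i, {j : Fin k | (imageOn f (Set.Icc (lo i) (hi i)) ∩
        imageOn f (Set.Icc (lo j) (hi j))).Nonempty}.ncard ≤ m

/-- A function `f : X → Y` is at most `n`-to-one: `|f⁻¹(y)| ≤ n` for every `y ∈ Y`. -/
def AtMostToOne {X Y : Type*} (n : ℕ) (f : X → Y) : Prop :=
  ∀ y : Y, (f ⁻¹' {y}).encard ≤ (n : ℕ∞)

/-! ## An embedding of the Cantor space and an involution -/

/-- The involution of the index set: `3k ↔ 6k+2`, `3k+1 ↔ 6k+5`. -/
def piv (n : ℕ) : ℕ :=
  if n % 3 = 0 then 2 * n + 2 else if n % 3 = 1 then 2 * n + 3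
  else 3 * ((n / 3) / 2) + (n / 3) % 2

theorem piv_piv (n : ℕ) : piv (piv n) = n := by
  unfold piv
  split_ifs <;> omega

/-- The embedding of the Cantor space `{0,1,2}^ℕ` into the line. -/
noncomputable def emb (a : ℕ → Fin 3) : ℝ := ∑' i, ((a i : ℕ) : ℝ) / 4 ^ (i + 1)

noncomputable def pre (n : ℕ) (a : ℕ → Fin 3) : ℝ :=
  ∑ i ∈ Finset.range n, ((a i : ℕ) : ℝ) / 4 ^ (i + 1)

theorem digit_le (a : ℕ → Fin 3) (i : ℕ) : ((a i : ℕ) : ℝ) ≤ 2 := by
  have h : (a i : ℕ) ≤ 2 := by omega
  exact_mod_cast h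

theorem summable_bound (n : ℕ) : Summable (fun i : ℕ => (2 : ℝ) / 4 ^ (i + n + 1)) := by
  have h : Summable (fun i : ℕ => (2 / 4 ^ (n + 1) : ℝ) * (1 / 4 : ℝ) ^ i) :=
    (summable_geometric_of_lt_one (by norm_num) (by norm_num)).mul_left _
  refine h.congr ?_
  intro i
  rw [add_assoc, one_div, inv_pow]
  field_simp
  ring

theorem tsum_bound (n : ℕ) : ∑' i : ℕ, (2 : ℝ) / 4 ^ (i + n + 1) = 2 / 3 / 4 ^ n := by
  have h : ∀ i : ℕ, (2 : ℝ) / 4 ^ (i + n + 1) = (2 / 4 ^ (n + 1) : ℝ) * (1 / 4 : ℝ) ^ i := by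
    intro i
    rw [add_assoc, pow_add, one_div, inv_pow]
    field_simp
  rw [tsum_congr h, tsum_mul_left, tsum_geometric_of_lt_one (by norm_num) (by norm_num), pow_succ]
  field_simp
  norm_num

theorem summable_emb (a : ℕ → Fin 3) :
    Summable (fun i : ℕ => ((a i : ℕ) : ℝ) / 4 ^ (i + 1)) := by
  refine Summable.of_nonneg_of_le (fun i => by positivity) (fun i => ?_) (summable_bound 0)
  simp only [add_zero]
  gcongr
  exact digit_le a i

theorem pre_le_emb (n : ℕ) (a : ℕ → Fin 3) : pre n a ≤ emb a :=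
  (summable_emb a).sum_le_tsum _ (fun i _ => by positivity)

theorem emb_le (n : ℕ) (a : ℕ → Fin 3) : emb a ≤ pre n a + 2 / 3 / 4 ^ n := by
  unfold emb pre
  rw [← (summable_emb a).sum_add_tsum_nat_add n, ← tsum_bound n]
  gcongr with i
  · exact (summable_nat_add_iff n).2 (summable_emb a)
  · exact summable_bound n
  · exact digit_le a _

theorem continuous_emb : Continuous emb := by
  refine continuous_tsum (u := fun i : ℕ => (2 : ℝ) / 4 ^ (i + 0 + 1)) (fun i => ?_)
    (summable_bound 0) (fun i a => ?_)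
  · have h : Continuous (fun a : ℕ → Fin 3 => a i) := continuous_apply i
    have h2 : Continuous (fun x : Fin 3 => ((x : ℕ) : ℝ) / 4 ^ (i + 1)) :=
      continuous_of_discreteTopology
    exact h2.comp h
  · rw [Real.norm_of_nonneg (by positivity)]
    simp only [add_zero]
    gcongr
    exact digit_le a i

theorem pre_congr {n : ℕ} {a b : ℕ → Fin 3} (h : ∀ i < n, a i = b i) : pre n a = pre n b := by
  unfold pre
  refine Finset.sum_congr rfl (fun i hi => ?_)
  rw [h i (Finset.mem_range.1 hi)]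

/-- Gap estimate: if `a`, `b` agree below `n` and `a n < b n` then `emb b - emb a ≥ 1/3/4^(n+1)`. -/
theorem emb_gap {n : ℕ} {a b : ℕ → Fin 3} (h : ∀ i < n, a i = b i) (hn : a n < b n) :
    emb a + 1 / 3 / 4 ^ (n + 1) ≤ emb b := by
  have h1 := emb_le (n + 1) a
  have h2 := pre_le_emb (n + 1) b
  have h3 : pre (n + 1) a + 1 / 4 ^ (n + 1) ≤ pre (n + 1) b := by
    have e1 : pre (n + 1) a = pre n a + ((a n : ℕ) : ℝ) / 4 ^ (n + 1) := by
      unfold pre; rw [Finset.sum_range_succ]
    have e2 : pre (n + 1) b = pre n b + ((b n : ℕ) : ℝ) / 4 ^ (n + 1) := by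
      unfold pre; rw [Finset.sum_range_succ]
    rw [e1, e2, pre_congr h, add_assoc, ← add_div]
    gcongr
    have : (a n : ℕ) + 1 ≤ (b n : ℕ) := hn
    exact_mod_cast this
  have h4 : (1 : ℝ) / 4 ^ (n + 1) = 1 / 3 / 4 ^ (n + 1) + 2 / 3 / 4 ^ (n + 1) := by
    field_simp; norm_num
  linarith

theorem emb_lt {n : ℕ} {a b : ℕ → Fin 3} (h : ∀ i < n, a i = b i) (hn : a n < b n) :
    emb a < emb b := by
  have := emb_gap h hn
  have h2 : (0 : ℝ) < 1 / 3 / 4 ^ (n + 1) := by positivity
  linarith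

theorem emb_injective : Function.Injective emb := by
  intro a b hab
  by_contra hne
  have hex : ∃ n, a n ≠ b n := by
    by_contra hcon
    push Not at hcon
    exact hne (funext hcon)
  classical
  let n := Nat.find hex
  have hn : a n ≠ b n := Nat.find_spec hex
  have hlt : ∀ i < n, a i = b i := by
    intro i hi
    have := Nat.find_min hex hi
    push Not at this
    exact this
  rcases lt_or_gt_of_ne hn with h | h
  · exact absurd hab (ne_of_lt (emb_lt hlt h))
  · exact absurd hab (ne_of_gt (emb_lt (fun i hi => (hlt i hi).symm) h))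

/-- The involution of the Cantor space. -/
def inv (a : ℕ → Fin 3) : ℕ → Fin 3 := fun i => a (piv i)

theorem inv_inv (a : ℕ → Fin 3) : inv (inv a) = a := by
  funext i
  simp [inv, piv_piv]

theorem continuous_inv : Continuous inv := by
  unfold inv
  exact continuous_pi (fun i => continuous_apply _)

theorem exists_ext : ∃ H : ℝ → ℝ, Continuous H ∧ ∀ a, H (emb a) = emb (inv a) := by
  have he : Topology.IsClosedEmbedding emb :=
    continuous_emb.isClosedEmbedding emb_injective
  obtain ⟨g, hg⟩ := ContinuousMap.exists_extension' he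
    (⟨fun a => emb (inv a), continuous_emb.comp continuous_inv⟩ : C(ℕ → Fin 3, ℝ))
  exact ⟨g, g.continuous, fun a => congrFun hg a⟩

/-- Some interval of a finite cover contains a cylinder of the Cantor set. -/
theorem exists_cylinder {k : ℕ} (lo hi : Fin k → ℝ)
    (hcover : ∀ x : ℝ, 0 ≤ x → x ≤ 1 → ∃ i, x ∈ Set.Icc (lo i) (hi i)) :
    ∃ d : ℕ, ∃ i : Fin k, ∃ a : ℕ → Fin 3, ∀ b : ℕ → Fin 3, (∀ l < d, b l = a l) →
      emb b ∈ Set.Icc (lo i) (hi i) := by
  classical
  have emb_nonneg : ∀ a, 0 ≤ emb a := fun a => by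
    have := pre_le_emb 0 a
    simpa [pre] using this
  have emb_le_one : ∀ a, emb a ≤ 1 := fun a => by
    have := emb_le 0 a
    simp [pre] at this
    linarith
  have hinf : (Set.range emb).Infinite := Set.infinite_range_of_injective emb_injective
  have hfin : (Set.range lo ∪ Set.range hi).Finite :=
    (Set.finite_range lo).union (Set.finite_range hi)
  obtain ⟨x, ⟨a, rfl⟩, hx⟩ := (hinf.sdiff hfin).nonempty
  obtain ⟨i, hi1, hi2⟩ := hcover (emb a) (emb_nonneg a) (emb_le_one a)
  have h1 : lo i < emb a := lt_of_le_of_ne hi1 (fun h => hx (Or.inl ⟨i, h⟩))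
  have h2 : emb a < hi i := lt_of_le_of_ne hi2 (fun h => hx (Or.inr ⟨i, h.symm⟩))
  have hpos : 0 < min (emb a - lo i) (hi i - emb a) := lt_min (by linarith) (by linarith)
  obtain ⟨d, hd⟩ := exists_pow_lt_of_lt_one hpos (show (1 / 4 : ℝ) < 1 by norm_num)
  have hd1 := hd.trans_le (min_le_left _ _)
  have hd2 := hd.trans_le (min_le_right _ _)
  have hb3 : (2 : ℝ) / 3 / 4 ^ d ≤ (1 / 4 : ℝ) ^ d := by
    rw [one_div, inv_pow, div_div, div_le_iff₀ (by positivity)]
    have : ((4 : ℝ) ^ d)⁻¹ * (3 * 4 ^ d) = 3 := by field_simp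
    rw [this]; norm_num
  refine ⟨d, i, a, fun b hb => ?_⟩
  have e1 := emb_le d b
  have e2 := emb_le d a
  have e3 := pre_le_emb d b
  have e4 := pre_le_emb d a
  rw [pre_congr (b := a) hb] at e1 e3
  exact ⟨by linarith, by linarith⟩

/-- Main obstruction. -/
theorem main_aux (H : ℝ → ℝ) (hH : ∀ a, H (emb a) = emb (inv a)) (m : ℕ) (ε : ℝ)
    (hε : ε = 1 / 3 / 4 ^ (6 * m + 20)) (k : ℕ) (lo hi : Fin k → ℝ)
    (hcover : ∀ x : ℝ, 0 ≤ x → x ≤ 1 → ∃ i, x ∈ Set.Icc (lo i) (hi i))
    (ht : ∀ i, hi i - lo i < ε)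
    (hm : ∀ i, {j : Fin k | ∃ x y : ℝ, (0 ≤ x ∧ x ≤ 1) ∧ (0 ≤ y ∧ y ≤ 1) ∧
      x ∈ Set.Icc (lo i) (hi i) ∧ y ∈ Set.Icc (lo j) (hi j) ∧
      x + H x = y + H y ∧ x * H x = y * H y}.ncard ≤ m) : False := by
  classical
  have emb_nonneg : ∀ a, 0 ≤ emb a := fun a => by
    have := pre_le_emb 0 a
    simpa [pre] using this
  have emb_le_one : ∀ a, emb a ≤ 1 := fun a => by
    have := emb_le 0 a
    simp [pre] at this
    linarith
  -- some interval contains a cylinder
  have hexd := exists_cylinder lo hi hcover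
  let d := Nat.find hexd
  obtain ⟨i, a, ha⟩ : ∃ i : Fin k, ∃ a : ℕ → Fin 3, ∀ b : ℕ → Fin 3, (∀ l < d, b l = a l) →
      emb b ∈ Set.Icc (lo i) (hi i) := Nat.find_spec hexd
  have hmin : ∀ d' < d, ∀ i : Fin k, ∀ a : ℕ → Fin 3, ∃ b : ℕ → Fin 3, (∀ l < d', b l = a l) ∧
      emb b ∉ Set.Icc (lo i) (hi i) := by
    intro d' hd' i a
    have := Nat.find_min hexd hd'
    push Not at this
    obtain ⟨b, hb1, hb2⟩ := this i a
    exact ⟨b, hb1, hb2⟩
  -- `d` is large
  have hd : 6 * m + 20 < d + 1 := by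
    let a0 : ℕ → Fin 3 := fun l => if l < d then a l else 0
    let a1 : ℕ → Fin 3 := fun l => if l < d then a l else 1
    have e0 := ha a0 (fun l hl => by simp [a0, hl])
    have e1 := ha a1 (fun l hl => by simp [a1, hl])
    have hgap : emb a0 + 1 / 3 / 4 ^ (d + 1) ≤ emb a1 :=
      emb_gap (fun l hl => by simp [a0, a1, hl]) (by simp [a0, a1])
    have hmesh := ht i
    have hlt : (1 : ℝ) / 3 / 4 ^ (d + 1) < 1 / 3 / 4 ^ (6 * m + 20) := by
      rw [← hε]
      have := e0.1
      have := e1.2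
      linarith
    by_contra hcon
    push Not at hcon
    have : (1 : ℝ) / 3 / 4 ^ (6 * m + 20) ≤ 1 / 3 / 4 ^ (d + 1) := by
      gcongr
      norm_num
    linarith
  -- the family of points
  let s : ℕ → ℕ := fun r => 3 * (d / 6 + 1 + r)
  have hs1 : ∀ r, piv (s r) ≥ d := by
    intro r
    simp only [s, piv]
    split_ifs <;> omega
  have hs2 : ∀ r, r ≤ m → s r + 1 < d := by
    intro r hr
    simp only [s]
    omega
  have hpinj : ∀ x y, piv x = piv y → x = y := by
    intro x y hxy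
    have := congrArg piv hxy
    rwa [piv_piv, piv_piv] at this
  let b : ℕ → (ℕ → Fin 3) := fun r l => if l < d then a l else if l = piv (s r) then 2 else 0
  have hb : ∀ r, emb (b r) ∈ Set.Icc (lo i) (hi i) :=
    fun r => ha (b r) (fun l hl => by simp [b, hl])
  have hx1 : ∀ r, inv (b r) (s r) = 2 := by
    intro r
    have := hs1 r
    simp [inv, b, not_lt.2 this]
  have hx2 : ∀ r r', r ≠ r' → inv (b r) (s r') = 0 := by
    intro r r' hrr
    have h3 := hs1 r'
    have h4 : piv (s r') ≠ piv (s r) := by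
      intro h
      have := hpinj _ _ h
      simp only [s] at this
      omega
    simp [inv, b, not_lt.2 h3, h4]
  have hx3 : ∀ r r' l, l < s r → l < s r' → inv (b r) l = inv (b r') l := by
    intro r r' l hl hl'
    have h4 : piv l ≠ piv (s r) := fun h => (ne_of_lt hl) (hpinj _ _ h)
    have h5 : piv l ≠ piv (s r') := fun h => (ne_of_lt hl') (hpinj _ _ h)
    simp [inv, b, h4, h5]
  -- choose the intervals
  have hch : ∀ r, ∃ j, emb (inv (b r)) ∈ Set.Icc (lo j) (hi j) :=
    fun r => hcover _ (emb_nonneg _) (emb_le_one _)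
  choose J hJ using hch
  have hJinj : ∀ r r', r ≤ m → r' ≤ m → r < r' → J r ≠ J r' := by
    intro r r' hr hr' hrr hJJ
    have hsl : s r < s r' := by simp only [s]; omega
    -- cylinder in between
    obtain ⟨c, hc1, hc2⟩ := hmin (s r + 1) (hs2 r hr) (J r)
      (fun l => if l = s r then 1 else inv (b r) l)
    apply hc2
    have hlow : emb (inv (b r')) < emb c := by
      apply emb_lt (n := s r)
      · intro l hl
        rw [hc1 l (by omega), if_neg (by omega)]
        exact (hx3 r r' l hl (by omega)).symm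
      · rw [hc1 (s r) (by omega), if_pos rfl, hx2 r' r (by omega)]
        decide
    have hhigh : emb c < emb (inv (b r)) := by
      apply emb_lt (n := s r)
      · intro l hl
        rw [hc1 l (by omega), if_neg (by omega)]
      · rw [hc1 (s r) (by omega), if_pos rfl, hx1 r]
        decide
    have hJr := hJ r
    have hJr' := hJ r'
    rw [← hJJ] at hJr'
    exact ⟨hJr'.1.trans hlow.le, hhigh.le.trans hJr.2⟩
  have hcard := hm i
  let F : Finset (Fin k) := (Finset.range (m + 1)).image J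
  have hFcard : F.card = m + 1 := by
    rw [Finset.card_image_of_injOn, Finset.card_range]
    intro r hr r' hr' hrr
    simp only [Finset.coe_range, Set.mem_Iio] at hr hr'
    by_contra hne
    rcases lt_or_gt_of_ne hne with h | h
    · exact hJinj r r' (by omega) (by omega) h hrr
    · exact hJinj r' r (by omega) (by omega) h hrr.symm
  have hsub : (F : Set (Fin k)) ⊆ {j : Fin k | ∃ x y : ℝ, (0 ≤ x ∧ x ≤ 1) ∧ (0 ≤ y ∧ y ≤ 1) ∧
      x ∈ Set.Icc (lo i) (hi i) ∧ y ∈ Set.Icc (lo j) (hi j) ∧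
      x + H x = y + H y ∧ x * H x = y * H y} := by
    intro j hj
    simp only [F, Finset.coe_image, Set.mem_image] at hj
    obtain ⟨r, -, rfl⟩ := hj
    refine ⟨emb (b r), emb (inv (b r)), ⟨emb_nonneg _, emb_le_one _⟩,
      ⟨emb_nonneg _, emb_le_one _⟩, hb r, hJ r, ?_, ?_⟩
    · simp only [hH, inv_inv]
      rw [add_comm]
    · simp only [hH, inv_inv]
      rw [mul_comm]
  have h5 := Set.ncard_le_ncard hsub (Set.toFinite _)
  rw [Set.ncard_coe_finset, hFcard] at h5
  omega

/-- Answer to Q1: yes, already for the Euclidean plane and `n = 2`.  There is a continuous map `f`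
from `[0, 1]` to the Euclidean plane such that every point of the plane has at most two preimages
under `f` and `f` is not finitely linear. -/
theorem result :
    ∃ f : Set.Icc (0 : ℝ) 1 → EuclideanSpace ℝ (Fin 2),
      Continuous f ∧ AtMostToOne 2 f ∧ ¬ FinitelyLinear f := by
  obtain ⟨H, hHc, hH⟩ := exists_ext
  have key : ∀ x y : Set.Icc (0 : ℝ) 1,
      (!₂[(x : ℝ) + H x, (x : ℝ) * H x] : EuclideanSpace ℝ (Fin 2)) =
        !₂[(y : ℝ) + H y, (y : ℝ) * H y] ↔
      (x : ℝ) + H x = y + H y ∧ (x : ℝ) * H x = y * H y := by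
    intro x y
    constructor
    · intro h
      have h0 := congrArg (fun v : EuclideanSpace ℝ (Fin 2) => v 0) h
      have h1 := congrArg (fun v : EuclideanSpace ℝ (Fin 2) => v 1) h
      simp at h0 h1
      exact ⟨h0, h1⟩
    · rintro ⟨h0, h1⟩
      rw [h0, h1]
  refine ⟨fun x => !₂[(x : ℝ) + H x, (x : ℝ) * H x], ?_, ?_, ?_⟩
  · fun_prop
  · intro y
    rcases Set.eq_empty_or_nonempty
      ((fun x : Set.Icc (0 : ℝ) 1 => (!₂[(x : ℝ) + H x, (x : ℝ) * H x] :
        EuclideanSpace ℝ (Fin 2))) ⁻¹' {y}) with h | ⟨x0, hx0⟩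
    · rw [h]; simp
    · have hp : ({(x0 : ℝ), H x0} : Set ℝ).encard ≤ ((2 : ℕ) : ℕ∞) := by
        refine (Set.encard_insert_le _ _).trans ?_
        rw [Set.encard_singleton]
        norm_num
      rw [← Function.Injective.encard_image (Subtype.val_injective)]
      refine (Set.encard_le_encard (t := {(x0 : ℝ), H x0}) ?_).trans hp
      rintro _ ⟨x, hx, rfl⟩
      obtain ⟨h1, h2⟩ := (key x x0).1 (hx.trans hx0.symm)
      have h3 : ((x : ℝ) - x0) * (x - H x0) = 0 := by
        have h4 : H x = x0 + H x0 - x := by linarith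
        rw [h4] at h2
        linarith
      rcases mul_eq_zero.1 h3 with h | h
      · left; linarith
      · right; simp only [Set.mem_singleton_iff]; linarith
  · rintro ⟨m, -, hm⟩
    obtain ⟨k, lo, hi, ⟨-, hI, -⟩, hlen, hcard⟩ := hm (1 / 3 / 4 ^ (6 * m + 20)) (by positivity)
    refine main_aux H hH m _ rfl k lo hi (fun x hx0 hx1 => ?_) hlen (fun i => ?_)
    · have : x ∈ ⋃ i, Set.Icc (lo i) (hi i) := hI ▸ ⟨hx0, hx1⟩
      exact Set.mem_iUnion.1 this
    · refine (Set.ncard_le_ncard ?_ (Set.toFinite _)).trans (hcard i)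
      rintro j ⟨x, y, hx, hy, hxi, hyj, h1, h2⟩
      refine ⟨!₂[x + H x, x * H x], ⟨⟨x, hx⟩, hxi, rfl⟩, ⟨⟨y, hy⟩, hyj, ?_⟩⟩
      exact (key ⟨y, hy⟩ ⟨x, hx⟩).2 ⟨h1.symm, h2.symm⟩

end Pool.Agent.Results.MP_d91817_gt.PlanarTwoToOne
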